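import Pool.Agent.H31.KR3

open Pool.Agent.H31.Snf

theorem Pool.Agent.Results.MP_547adb_gt.Main.result :
    ∃ (X : Type) (_ : TopologicalSpace X), T35Space X ∧ KR (FreeGroup X) (topF X) ∧
      ¬KR (Fn X 1) (TopologicalSpace.induced Subtype.val (topF X)) :=
  ⟨XX, inferInstance, inferInstance, krF, not_kr_F1⟩
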